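import Pool.Agent.H9.HB2

namespace Pool.Agent.Results.MP_28939e_an.Counter

/-- the class `𝓕_{μ,L}(ℝ)`: differentiable, `μ`-strongly convex, `L`-Lipschitz derivative -/
def cls (μ L : ℝ) : Set (ℝ → ℝ) := {f | Differentiable ℝ f ∧ StrongConvexOn Set.univ μ f ∧
  ∀ x y, |deriv f x - deriv f y| ≤ L * |x - y|}

/-- `x` is (the periodic extension of) a one-dimensional cycle of length `K` -/
def Cycle (μ L γ β : ℝ) (K : ℕ) (x : ℕ → ℝ) : Prop :=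
  (∀ t, x (t + K) = x t) ∧ (∃ i j, x i ≠ x j) ∧ ∃ f ∈ cls μ L, ∀ t,
    x (t + 2) = x (t + 1) - γ * deriv f (x (t + 1)) + β * (x (t + 1) - x t)

/-- the rank pattern: `0`, then the odd numbers upwards, then the even numbers downwards -/
def rank (K j : ℕ) : ℕ := if j = 0 then 0 else if 2 * j ≤ K then 2 * j - 1 else 2 * (K - j)

/-- the points `x₀, …, x_{K-1}` follow the rank pattern -/
def Ordered (K : ℕ) (x : ℕ → ℝ) : Prop := ∀ i < K, ∀ j < K, rank K i < rank K j → x i ≤ x j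

theorem result : (∀ μ L : ℝ, 0 < μ → μ ≤ L → ∃ γ β : ℝ, 0 < γ ∧ 0 < β ∧ β < 1 ∧
      (∃ K ≥ 3, ∃ x, Cycle μ L γ β K x) ∧ ∀ K ≥ 3, ∀ x, Cycle μ L γ β K x → ¬Ordered K x) ∧
    (∃ x, Cycle 3 (15 / 4) 1 (9 / 10) 5 x ∧ Set.InjOn x (Set.Iio 5)) ∧
    ∀ K ≥ 3, ∀ x, Cycle 3 (15 / 4) 1 (9 / 10) K x → ¬Ordered K x := by
  have key : ∀ μ L γ β : ℝ, 0 < γ → 0 ≤ β → β ≤ 1 → 2 + β < γ * μ → ∀ K ≥ 3, ∀ x,
      Cycle μ L γ β K x → ¬Ordered K x := fun μ L γ β a b c d K e x ⟨p, ⟨i, j, q⟩, f, r, s⟩ o =>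
    have := H9.HB.flat (G := fun y => γ * deriv f y) b c d e (fun y z w => by
      nlinarith [H9.HB.low r.1 r.2.1 w]) p s o
    q ((this i).trans (this j).symm)
  obtain ⟨g, x, a1, a2, a3, a4⟩ := H9.HB.five
  obtain ⟨f, a5, rfl⟩ := H9.HB.mk three_pos a1
  refine ⟨fun μ L h1 h2 => ?_, ⟨x, ⟨a2, ⟨0, 1, fun e => by simpa using a3 (by simp) (by simp) e⟩,
    f, a5, a4⟩, a3⟩, key _ _ _ _ one_pos (by norm_num) (by norm_num) (by norm_num)⟩
  have e : 19 / 5 / μ * μ = 19 / 5 := by field_simp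
  obtain ⟨f, b1, b2⟩ := H9.HB.mk (L := L) h1 (g := fun y => μ * y) fun y z w => ⟨by linarith,
    by nlinarith⟩
  refine ⟨19 / 5 / μ, 9 / 10, by positivity, by norm_num, by norm_num, ⟨4, by norm_num,
    fun t => (-1) ^ t, fun t => by ring, ⟨0, 1, by norm_num⟩, f, b1, fun t => ?_⟩,
    key _ _ _ _ (by positivity) (by norm_num) (by norm_num) (by linarith)⟩
  simp only [b2, ← mul_assoc, e]
  ring

end Pool.Agent.Results.MP_28939e_an.Counter
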